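import Pool.Agent.W2helper26.TR.Stm2

/-!
Piece O of the disproof of MP_27fa52_an: orthogonality of stage `k`.
-/

set_option autoImplicit false

open Complex Filter Topology Set MeasureTheory

namespace Pool.Agent.W2helper17.TR

open Pool.Agent.W2helper26.TR

/-! ### the Laplace transform -/

lemma bump_eq (j L : ℕ) (X : ℝ) (z : ℂ) (t : ℝ) :
    (bump j L X t : ℂ) * cexp (t * z) =
      (Ioi (L : ℝ)).indicator (fun t : ℝ => ((qk j : ℝ) * cexp (X * L)) * cexp ((z - X) * t)) t := by
  unfold bump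
  by_cases h : (L : ℝ) < t
  · rw [if_pos h, indicator_of_mem (by exact h)]
    unfold qk
    push_cast
    rw [mul_assoc, mul_assoc, ← Complex.exp_add, ← Complex.exp_add]
    congr 2
    ring
  · rw [if_neg h, indicator_of_notMem (by exact h)]
    simp

lemma bump_int {j L : ℕ} {X : ℝ} {z : ℂ} (hz : z.re < X) :
    IntegrableOn (fun t : ℝ => (bump j L X t : ℂ) * cexp (t * z)) (Ioi 0) := by
  have h1 : IntegrableOn (fun t : ℝ => ((qk j : ℝ) * cexp (X * L)) * cexp ((z - X) * t))
      (Ioi (L : ℝ)) := by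
    apply Integrable.const_mul
    exact integrableOn_exp_mul_complex_Ioi (by simp; linarith) _
  have h2 : Integrable ((Ioi (L : ℝ)).indicator
      (fun t : ℝ => ((qk j : ℝ) * cexp (X * L)) * cexp ((z - X) * t))) :=
    (integrable_indicator_iff measurableSet_Ioi).2 h1
  refine (h2.integrableOn (s := Ioi 0)).congr_fun (fun t _ => (bump_eq j L X z t).symm)
    measurableSet_Ioi

lemma bump_val {j L : ℕ} {X : ℝ} {z : ℂ} (hz : z.re < X) :
    ∫ t in Ioi (0 : ℝ), (bump j L X t : ℂ) * cexp (t * z) = qk j * cexp (L * z) / (X - z) := by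
  simp only [bump_eq]
  rw [integral_indicator measurableSet_Ioi, Measure.restrict_restrict measurableSet_Ioi]
  have h1 : Ioi (L : ℝ) ∩ Ioi 0 = Ioi (L : ℝ) := by
    apply inter_eq_left.2
    intro t ht
    have ht' : (L : ℝ) < t := ht
    exact lt_of_le_of_lt (Nat.cast_nonneg L) ht'
  rw [h1, integral_const_mul, integral_exp_mul_complex_Ioi (by simp; linarith)]
  have h2 : z - X ≠ 0 := by
    intro h
    have := congrArg Complex.re h
    simp at this
    linarith
  have h3 : X - z ≠ 0 := by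
    intro h
    apply h2
    linear_combination -h
  have h4 : cexp (X * L) * cexp ((z - X) * (L : ℝ)) = cexp (L * z) := by
    rw [← Complex.exp_add]
    congr 1
    push_cast
    ring
  have h5 : -cexp ((z - X) * (L : ℝ)) / (z - X) = cexp ((z - X) * (L : ℝ)) / (X - z) := by
    rw [div_eq_div_iff h2 h3]
    ring
  rw [h5, ← h4]
  ring

lemma e_int {z : ℂ} (hz : z.re < 1) :
    IntegrableOn (fun t : ℝ => (Real.exp (-t) : ℂ) * cexp (t * z)) (Ioi 0) := by
  have h1 := integrableOn_exp_mul_complex_Ioi (a := z - 1) (by simp; linarith) 0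
  refine h1.congr_fun (fun t _ => ?_) measurableSet_Ioi
  show cexp ((z - 1) * t) = (Real.exp (-t) : ℂ) * cexp (t * z)
  rw [Complex.ofReal_exp, ← Complex.exp_add]
  congr 1
  push_cast
  ring

lemma e_val {z : ℂ} (hz : z.re < 1) :
    ∫ t in Ioi (0 : ℝ), (Real.exp (-t) : ℂ) * cexp (t * z) = 1 / (1 - z) := by
  have h1 : (fun t : ℝ => (Real.exp (-t) : ℂ) * cexp (t * z)) = fun t : ℝ => cexp ((z - 1) * t) := by
    funext t
    rw [Complex.ofReal_exp, ← Complex.exp_add]
    congr 1
    push_cast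
    ring
  rw [h1, integral_exp_mul_complex_Ioi (by simp; linarith)]
  have h2 : z - 1 ≠ 0 := by
    intro h
    have := congrArg Complex.re h
    simp at this
    linarith
  have h3 : 1 - z ≠ 0 := by
    intro h
    apply h2
    linear_combination -h
  simp only [Complex.ofReal_zero, mul_zero, Complex.exp_zero]
  rw [div_eq_div_iff h2 h3]
  ring

lemma f_eq (L : ℕ → ℕ) (X : ℕ → ℝ) (k : ℕ) (z : ℂ) (t : ℝ) :
    (fpart L X k t : ℂ) * cexp (t * z) = (Real.exp (-t) : ℂ) * cexp (t * z) +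
      ∑ j ∈ Finset.range k, (bump j (L j) (X j) t : ℂ) * cexp (t * z) := by
  unfold fpart
  push_cast
  rw [add_mul, Finset.sum_mul]

lemma f_int {L : ℕ → ℕ} {X : ℕ → ℝ} (hX : ∀ j, 64 ≤ X j) (k : ℕ) {z : ℂ} (hz : z.re < 1) :
    IntegrableOn (fun t : ℝ => (fpart L X k t : ℂ) * cexp (t * z)) (Ioi 0) := by
  simp only [f_eq]
  refine (e_int hz).add ?_
  apply integrable_finsetSum
  intro j _
  exact bump_int (by linarith [hX j])

lemma f_val {L : ℕ → ℕ} {X : ℕ → ℝ} (hX : ∀ j, 64 ≤ X j) (k : ℕ) {z : ℂ} (hz : z.re < 1) :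
    ∫ t in Ioi (0 : ℝ), (fpart L X k t : ℂ) * cexp (t * z) = Mk L X k z / (1 - z) := by
  simp only [f_eq]
  rw [integral_add (e_int hz) (integrable_finsetSum _ fun j _ => bump_int (by linarith [hX j])),
    integral_finsetSum _ (fun j _ => bump_int (by linarith [hX j])), e_val hz]
  have h3 : 1 - z ≠ 0 := by
    intro h
    have := congrArg Complex.re h
    simp at this
    linarith
  unfold Mk
  rw [add_div, Finset.sum_div]
  congr 1
  refine Finset.sum_congr rfl fun j _ => ?_
  rw [bump_val (by linarith [hX j])]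
  have h4 : (X j : ℂ) - z ≠ 0 := by
    intro h
    have := congrArg Complex.re h
    simp at this
    linarith [hX j]
  unfold Pf
  field_simp

/-! ### Fubini -/

section

variable {f : ℝ → ℂ} {b : ℝ} {w H : ℝ → ℂ} {τ : ℝ}

/-- integrability on the product -/
lemma prod_int (hf : IntegrableOn (fun t : ℝ => f t * cexp (t * b)) (Ioi 0))
    (hw : Continuous w) (hwb : ∀ s ∈ Icc (0 : ℝ) 1, (w s).re ≤ b)
    (hH : ContinuousOn H (Icc 0 1)) :
    Integrable (fun p : ℝ × ℝ => f p.1 * (H p.2 * cexp ((p.1 + τ : ℝ) * w p.2)))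
      ((volume.restrict (Ioi (0 : ℝ))).prod (volume.restrict (Ioc (0 : ℝ) 1))) := by
  have h1 : IntegrableOn (fun s : ℝ => H s * cexp (τ * w s)) (Ioc (0 : ℝ) 1) := by
    have h2 : ContinuousOn (fun s : ℝ => H s * cexp (τ * w s)) (Icc 0 1) :=
      hH.mul (by fun_prop)
    exact (h2.integrableOn_compact isCompact_Icc).mono_set Ioc_subset_Icc_self
  have h3 := Integrable.mul_prod (μ := volume.restrict (Ioi (0 : ℝ)))
    (ν := volume.restrict (Ioc (0 : ℝ) 1)) hf h1
  have h4 : Integrable (fun p : ℝ × ℝ => cexp (p.1 * (w p.2 - b)) *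
      ((f p.1 * cexp (p.1 * b)) * (H p.2 * cexp (τ * w p.2))))
      ((volume.restrict (Ioi (0 : ℝ))).prod (volume.restrict (Ioc (0 : ℝ) 1))) := by
    refine Integrable.bdd_mul (c := 1) h3 ?_ ?_
    · apply Continuous.aestronglyMeasurable
      fun_prop
    · rw [Measure.prod_restrict]
      refine (ae_restrict_iff' (measurableSet_Ioi.prod measurableSet_Ioc)).2
        (Filter.Eventually.of_forall ?_)
      rintro ⟨t, s⟩ ⟨ht, hs⟩
      have ht' : (0 : ℝ) < t := ht
      have hs' := hwb s (Ioc_subset_Icc_self hs)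
      show ‖cexp (t * (w s - b))‖ ≤ 1
      rw [Complex.norm_exp]
      have e : ((t : ℂ) * (w s - b)).re = t * ((w s).re - b) := by simp
      rw [e]
      apply Real.exp_le_one_iff.2
      exact mul_nonpos_of_nonneg_of_nonpos ht'.le (by linarith)
  refine h4.congr (Filter.Eventually.of_forall ?_)
  rintro ⟨t, s⟩
  show cexp (t * (w s - b)) * ((f t * cexp (t * b)) * (H s * cexp (τ * w s))) =
    f t * (H s * cexp ((t + τ : ℝ) * w s))
  have e : cexp ((t + τ : ℝ) * w s) = cexp (t * (w s - b)) * cexp (t * b) * cexp (τ * w s) := by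
    rw [← Complex.exp_add, ← Complex.exp_add]
    congr 1
    push_cast
    ring
  rw [e]
  ring

lemma one_side (hf : IntegrableOn (fun t : ℝ => f t * cexp (t * b)) (Ioi 0))
    (hw : Continuous w) (hwb : ∀ s ∈ Icc (0 : ℝ) 1, (w s).re ≤ b)
    (hH : ContinuousOn H (Icc 0 1)) :
    IntegrableOn (fun t : ℝ => f t * ∫ s in (0:ℝ)..1, H s * cexp ((t + τ : ℝ) * w s)) (Ioi 0) ∧
    ∫ t in Ioi (0 : ℝ), f t * ∫ s in (0:ℝ)..1, H s * cexp ((t + τ : ℝ) * w s) =
      ∫ s in (0:ℝ)..1, H s * cexp (τ * w s) * ∫ t in Ioi (0 : ℝ), f t * cexp (t * w s) := by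
  have h1 := prod_int (τ := τ) hf hw hwb hH
  have e1 : (fun t : ℝ => f t * ∫ s in (0:ℝ)..1, H s * cexp ((t + τ : ℝ) * w s)) =
      fun t : ℝ => ∫ s in Ioc (0:ℝ) 1, f t * (H s * cexp ((t + τ : ℝ) * w s)) := by
    funext t
    rw [intervalIntegral.integral_of_le zero_le_one, integral_const_mul]
  constructor
  · rw [e1]
    exact h1.integral_prod_left
  · rw [e1]
    have h2 := integral_integral_swap (f := fun (t s : ℝ) => f t * (H s * cexp ((t + τ : ℝ) * w s)))
      (μ := volume.restrict (Ioi (0 : ℝ))) (ν := volume.restrict (Ioc (0 : ℝ) 1)) h1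
    rw [h2, intervalIntegral.integral_of_le zero_le_one]
    congr 1
    funext s
    rw [← integral_const_mul]
    congr 1
    funext t
    have e : cexp ((t + τ : ℝ) * w s) = cexp (τ * w s) * cexp (t * w s) := by
      rw [← Complex.exp_add]
      congr 1
      push_cast
      ring
    rw [e]
    ring

end

/-- **Piece O.** -/
theorem orth : OrthStm := by
  intro L X k b a G hX hb0 hb hG hex τ hτ
  have hpi := Real.pi_pos
  have hab : b / 2 ≤ b := by linarith
  have hcd : a + 2 * Real.pi ≤ a + 4 * Real.pi := by linarith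
  set w : Fin 4 → ℝ → ℂ := fun i => sd (b / 2) b (a + 2 * Real.pi) (a + 4 * Real.pi) i with hw
  set κ : Fin 4 → ℂ := fun i => cf (b / 2) b (a + 2 * Real.pi) (a + 4 * Real.pi) i with hκ
  have hmem : ∀ i, ∀ s ∈ Icc (0 : ℝ) 1, w i s ∈ BN b a := fun i s hs => sd_mem hab hcd i hs
  have hwc : ∀ i, Continuous (w i) := fun i => sd_cont _ _ _ _ i
  have hwb : ∀ i, ∀ s ∈ Icc (0 : ℝ) 1, (w i s).re ≤ b := fun i s hs => (BN_mem hb0 (hmem i s hs)).2.1
  have hH : ∀ i, ContinuousOn (fun s => G (w i s)) (Icc 0 1) := fun i =>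
    hG.comp (hwc i).continuousOn (fun s hs => hmem i s hs)
  have hfi : IntegrableOn (fun t : ℝ => (fpart L X k t : ℂ) * cexp (t * b)) (Ioi 0) :=
    f_int hX k (by simp; linarith)
  have key := fun i => one_side (τ := τ) hfi (hwc i) (hwb i) (hH i)
  -- the expression for the integrand
  have e1 : (fun t : ℝ => (fpart L X k t : ℂ) * gf b a G (t + τ)) = fun t : ℝ =>
      ∑ i, ((2 * Real.pi * I)⁻¹ * κ i) * ((fpart L X k t : ℂ) *
        ∫ s in (0:ℝ)..1, G (w i s) * cexp ((t + τ : ℝ) * w i s)) := by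
    funext t
    unfold gf RN
    rw [RI_eq_sum, Finset.mul_sum, Finset.mul_sum]
    refine Finset.sum_congr rfl fun i _ => ?_
    ring
  rw [e1, integral_finsetSum _ (fun i _ => (key i).1.const_mul _)]
  have e2 : ∀ i, ∫ t in Ioi (0 : ℝ), ((2 * Real.pi * I)⁻¹ * κ i) * ((fpart L X k t : ℂ) *
        ∫ s in (0:ℝ)..1, G (w i s) * cexp ((t + τ : ℝ) * w i s)) =
      (2 * Real.pi * I)⁻¹ * (κ i * ∫ s in (0:ℝ)..1,
        (fun μ => G μ * (Mk L X k μ * (cexp (τ * μ) / (1 - μ)))) (w i s)) := by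
    intro i
    rw [integral_const_mul, (key i).2, mul_assoc]
    congr 2
    apply intervalIntegral.integral_congr
    intro s hs
    rw [uIcc_of_le zero_le_one] at hs
    show G (w i s) * cexp (τ * w i s) * ∫ t in Ioi (0 : ℝ), (fpart L X k t : ℂ) * cexp (t * w i s) =
      G (w i s) * (Mk L X k (w i s) * (cexp (τ * w i s) / (1 - w i s)))
    rw [f_val hX k (lt_of_le_of_lt (hwb i s hs) (by linarith))]
    ring
  rw [Finset.sum_congr rfl (fun i _ => e2 i), ← Finset.mul_sum]
  have e3 := RI_eq_sum (b / 2) b (a + 2 * Real.pi) (a + 4 * Real.pi)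
    (fun μ => G μ * (Mk L X k μ * (cexp (τ * μ) / (1 - μ))))
  have e4 := hex (fun μ => cexp (τ * μ) / (1 - μ)) (by
    refine DifferentiableOn.div (by fun_prop) (by fun_prop) ?_
    rintro z ⟨hz, _⟩ h
    have h1 : z.re ≤ b := hz.2
    have := congrArg Complex.re h
    simp at this
    linarith)
  unfold RN at e4
  rw [e3] at e4
  rw [e4, mul_zero]

end Pool.Agent.W2helper17.TR
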