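import Mathlib
import Pool.Agent.W2helper26.TR.Stm

/-!
Piece R of the disproof of MP_27fa52_an: an explicit Runge lemma.  Poles are pushed with the
theorem of Mathlib on the spectrum relative to a closed subalgebra.
-/

set_option autoImplicit false

namespace Pool.Agent.W2helper17.TR

open Set Filter Topology MeasureTheory Complex

section alg

variable (K : Set ℂ)

/-- Restrictions of entire functions to `K`. -/
def entAlg : Subalgebra ℂ C(K, ℂ) where
  carrier := {f | ∃ E : ℂ → ℂ, Differentiable ℂ E ∧ ∀ x : K, f x = E x}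
  mul_mem' := by
    rintro f g ⟨E, hE, hf⟩ ⟨F, hF, hg⟩
    exact ⟨fun z => E z * F z, hE.mul hF, fun x => by simp [hf, hg]⟩
  add_mem' := by
    rintro f g ⟨E, hE, hf⟩ ⟨F, hF, hg⟩
    exact ⟨fun z => E z + F z, hE.add hF, fun x => by simp [hf, hg]⟩
  algebraMap_mem' := fun r => ⟨fun _ => r, differentiable_const _, fun x => by simp⟩

/-- The identity function on `K`. -/
def idK : C(K, ℂ) := ⟨Subtype.val, continuous_subtype_val⟩

lemma idK_mem : idK K ∈ entAlg K := ⟨fun z => z, differentiable_id, fun _ => rfl⟩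

variable [CompactSpace K]

/-- The closure. -/
noncomputable abbrev clA : Subalgebra ℂ C(K, ℂ) := (entAlg K).topologicalClosure

instance clA_closed : IsClosed (clA K : Set C(K, ℂ)) :=
  Subalgebra.isClosed_topologicalClosure _

instance clA_complete : CompleteSpace (clA K) := (clA_closed K).completeSpace_coe

/-- The identity in the closed algebra. -/
noncomputable def zA : clA K := ⟨idK K, Subalgebra.le_topologicalClosure _ (idK_mem K)⟩

lemma spec_idK : spectrum ℂ (idK K) = K := by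
  rw [ContinuousMap.spectrum_eq_range]
  ext x
  constructor
  · rintro ⟨y, rfl⟩; exact y.2
  · intro hx; exact ⟨⟨x, hx⟩, rfl⟩

/-- Pole pushing: points joined to infinity in the complement are not in the spectrum. -/
lemma notMem_spec {μ : ℂ} {T : Set ℂ} (hT : IsPreconnected T) (hμ : μ ∈ T) (hTK : T ⊆ Kᶜ)
    (hb : ¬ Bornology.IsBounded T) : μ ∉ spectrum ℂ (zA K) := by
  intro h
  have h1 := Subalgebra.spectrum_isBounded_connectedComponentIn (clA K) (zA K) h
  have h2 : T ⊆ connectedComponentIn (spectrum ℂ ((zA K : clA K) : C(K, ℂ)))ᶜ μ := by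
    apply hT.subset_connectedComponentIn hμ
    have : spectrum ℂ ((zA K : clA K) : C(K, ℂ)) = K := spec_idK K
    rw [this]; exact hTK
  exact hb (h1.subset h2)

/-- The resolvent function in the closed algebra. -/
noncomputable def rA (μ : ℂ) : clA K := resolvent (zA K) μ

lemma rA_cont {μ : ℂ} (h : μ ∉ spectrum ℂ (zA K)) : ContinuousAt (rA K) μ := by
  have h1 : μ ∈ resolventSet ℂ (zA K) := by
    rw [spectrum, Set.mem_compl_iff, not_not] at h; exact h
  exact (spectrum.hasDerivAt_resolvent_const_left h1).continuousAt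

/-- evaluation at a point -/
noncomputable def evA (x : K) : clA K →L[ℂ] ℂ :=
  (ContinuousMap.evalCLM ℂ x).comp (clA K).toSubmodule.subtypeL

lemma evA_rA {μ : ℂ} (h : μ ∉ spectrum ℂ (zA K)) (x : K) : evA K x (rA K μ) = 1 / (μ - x) := by
  have h1 : IsUnit (algebraMap ℂ (clA K) μ - zA K) := by
    rw [spectrum.notMem_iff] at h; exact h
  have h2 : (algebraMap ℂ (clA K) μ - zA K) * rA K μ = 1 := Ring.mul_inverse_cancel _ h1
  have h3 : evA K x ((algebraMap ℂ (clA K) μ - zA K) * rA K μ) = evA K x 1 := by rw [h2]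
  have h4 : (μ - x) * evA K x (rA K μ) = 1 := by
    have e1 : evA K x ((algebraMap ℂ (clA K) μ - zA K) * rA K μ)
        = (μ - x) * evA K x (rA K μ) := rfl
    have e2 : evA K x 1 = 1 := rfl
    rw [← e1, h3, e2]
  have h5 : μ - x ≠ 0 := fun h0 => by rw [h0, zero_mul] at h4; exact zero_ne_one h4
  field_simp
  linear_combination h4

end alg

/-! ### the integral of `1/(μ-λ)` over the boundary of a rectangle -/

lemma hd_h (r : ℝ) (l : ℂ) (x : ℝ) :
    HasDerivAt (fun t : ℝ => ((t : ℂ) + r * I - l)) 1 x := by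
  have h := (Complex.ofRealCLM.hasDerivAt (x := x))
  simpa using (h.add_const (r * I)).sub_const l

lemma hd_v (p : ℝ) (l : ℂ) (y : ℝ) :
    HasDerivAt (fun t : ℝ => ((p : ℂ) + t * I - l)) I y := by
  have h := (Complex.ofRealCLM.hasDerivAt (x := y)).mul_const I
  simpa using (h.const_add (p : ℂ)).sub_const l

lemma int_h (p q r : ℝ) (l : ℂ) (hr : r ≠ l.im) :
    (∫ x in p..q, 1 / ((x : ℂ) + r * I - l))
      = Complex.log (q + r * I - l) - Complex.log (p + r * I - l) := by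
  have hne : ∀ x : ℝ, ((x : ℂ) + r * I - l) ∈ slitPlane := by
    intro x
    refine Or.inr ?_
    simp only [Complex.sub_im, Complex.add_im, Complex.ofReal_im, Complex.mul_im, Complex.I_im,
      Complex.I_re, Complex.ofReal_re]
    intro h
    apply hr
    linarith
  refine intervalIntegral.integral_eq_sub_of_hasDerivAt (f := fun x : ℝ => Complex.log (x + r * I - l))
    (fun x _ => (hd_h r l x).clog_real (hne x)) ?_
  apply ContinuousOn.intervalIntegrable
  refine ContinuousOn.div continuousOn_const (by fun_prop) ?_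
  intro x _
  exact slitPlane_ne_zero (hne x)

lemma int_v (p r s : ℝ) (l : ℂ) (hp : l.re < p) :
    (I * ∫ y in r..s, 1 / ((p : ℂ) + y * I - l))
      = Complex.log (p + s * I - l) - Complex.log (p + r * I - l) := by
  have hne : ∀ y : ℝ, ((p : ℂ) + y * I - l) ∈ slitPlane := by
    intro y
    refine Or.inl ?_
    simp only [Complex.sub_re, Complex.add_re, Complex.ofReal_re, Complex.mul_re, Complex.I_im,
      Complex.I_re, Complex.ofReal_im]
    linarith
  rw [← intervalIntegral.integral_const_mul]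
  refine intervalIntegral.integral_eq_sub_of_hasDerivAt (f := fun y : ℝ => Complex.log (p + y * I - l))
    (fun y _ => ?_) ?_
  · have := (hd_v p l y).clog_real (hne y)
    rw [mul_one_div]; exact this
  apply ContinuousOn.intervalIntegrable
  refine continuousOn_const.mul (ContinuousOn.div continuousOn_const (by fun_prop) ?_)
  intro x _
  exact slitPlane_ne_zero (hne x)

lemma int_v' (p r s : ℝ) (l : ℂ) (hp : p < l.re) :
    (I * ∫ y in r..s, 1 / ((p : ℂ) + y * I - l))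
      = Complex.log (-(p + s * I - l)) - Complex.log (-(p + r * I - l)) := by
  have hne : ∀ y : ℝ, (-((p : ℂ) + y * I - l)) ∈ slitPlane := by
    intro y
    refine Or.inl ?_
    simp only [Complex.neg_re, Complex.sub_re, Complex.add_re, Complex.ofReal_re, Complex.mul_re,
      Complex.I_im, Complex.I_re, Complex.ofReal_im]
    linarith
  rw [← intervalIntegral.integral_const_mul]
  refine intervalIntegral.integral_eq_sub_of_hasDerivAt
    (f := fun y : ℝ => Complex.log (-(p + y * I - l)))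
    (fun y _ => ?_) ?_
  · have h2 : HasDerivAt (fun t : ℝ => Complex.log (-((p : ℂ) + t * I - l)))
        (-I / (-((p : ℂ) + y * I - l))) y := (hd_v p l y).neg.clog_real (hne y)
    rw [mul_one_div]
    rw [neg_div_neg_eq] at h2
    exact h2
  apply ContinuousOn.intervalIntegrable
  refine continuousOn_const.mul (ContinuousOn.div continuousOn_const (by fun_prop) ?_)
  intro x _ h0
  exact slitPlane_ne_zero (hne x) (by rw [h0, neg_zero])

lemma log_neg_of_im_neg {z : ℂ} (h : z.im < 0) : Complex.log (-z) = Complex.log z + Real.pi * I := by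
  unfold Complex.log
  rw [norm_neg, arg_neg_eq_arg_add_pi_of_im_neg h]
  push_cast; ring

lemma log_neg_of_im_pos {z : ℂ} (h : 0 < z.im) : Complex.log (-z) = Complex.log z - Real.pi * I := by
  unfold Complex.log
  rw [norm_neg, arg_neg_eq_arg_sub_pi_of_im_pos h]
  push_cast; ring

/-- The boundary integral of a function. -/
noncomputable def bd {V : Type*} [NormedAddCommGroup V] [NormedSpace ℂ V] (p q r s : ℝ)
    (f : ℂ → V) : V :=
  (∫ x : ℝ in p..q, f (x + r * I)) - (∫ x : ℝ in p..q, f (x + s * I)) +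
    I • (∫ y : ℝ in r..s, f (q + y * I)) - I • (∫ y : ℝ in r..s, f (p + y * I))

lemma bd_in (p q r s : ℝ) (l : ℂ) (h1 : p < l.re) (h2 : l.re < q) (h3 : r < l.im) (h4 : l.im < s) :
    bd p q r s (fun m => 1 / (m - l)) = 2 * Real.pi * I := by
  unfold bd
  rw [smul_eq_mul, smul_eq_mul, int_h p q r l h3.ne, int_h p q s l h4.ne', int_v q r s l h2,
    int_v' p r s l h1, log_neg_of_im_neg (z := (p + r * I - l)) (by simp; linarith),
    log_neg_of_im_pos (z := (p + s * I - l)) (by simp; linarith)]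
  ring

lemma bd_out (p q r s : ℝ) (hpq : p ≤ q) (hrs : r ≤ s) (l : ℂ)
    (h : ¬ (p ≤ l.re ∧ l.re ≤ q ∧ r ≤ l.im ∧ l.im ≤ s)) :
    bd p q r s (fun m => 1 / (m - l)) = 0 := by
  have key := Complex.integral_boundary_rect_eq_zero_of_differentiableOn (fun m => 1 / (m - l))
    (⟨p, r⟩ : ℂ) (⟨q, s⟩ : ℂ) ?_
  · exact key
  · intro m hm
    refine DifferentiableAt.differentiableWithinAt ?_
    refine DifferentiableAt.div (by fun_prop) (by fun_prop) ?_
    intro h0
    apply h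
    have hl : m = l := sub_eq_zero.mp h0
    subst hl
    rw [mem_reProdIm, uIcc_of_le hpq, uIcc_of_le hrs] at hm
    exact ⟨hm.1.1, hm.1.2, hm.2.1, hm.2.2⟩

lemma bd_congr (p q r s : ℝ) (hpq : p ≤ q) (hrs : r ≤ s) (f g : ℂ → ℂ)
    (h1 : ∀ x ∈ Icc p q, f (x + r * I) = g (x + r * I))
    (h2 : ∀ x ∈ Icc p q, f (x + s * I) = g (x + s * I))
    (h3 : ∀ y ∈ Icc r s, f (q + y * I) = g (q + y * I))
    (h4 : ∀ y ∈ Icc r s, f (p + y * I) = g (p + y * I)) : bd p q r s f = bd p q r s g := by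
  unfold bd
  rw [intervalIntegral.integral_congr (g := fun x : ℝ => g (x + r * I)) (fun x hx => h1 x (by
      rwa [uIcc_of_le hpq] at hx)),
    intervalIntegral.integral_congr (g := fun x : ℝ => g (x + s * I)) (fun x hx => h2 x (by
      rwa [uIcc_of_le hpq] at hx)),
    intervalIntegral.integral_congr (g := fun y : ℝ => g (q + y * I)) (fun x hx => h3 x (by
      rwa [uIcc_of_le hrs] at hx)),
    intervalIntegral.integral_congr (g := fun y : ℝ => g (p + y * I)) (fun x hx => h4 x (by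
      rwa [uIcc_of_le hrs] at hx))]

lemma bd_comp {V : Type*} [NormedAddCommGroup V] [NormedSpace ℂ V] [CompleteSpace V]
    (p q r s : ℝ) (hpq : p ≤ q) (hrs : r ≤ s) (f : ℂ → V) (L : V →L[ℂ] ℂ)
    (h1 : ∀ x ∈ Icc p q, ContinuousAt f (x + r * I))
    (h2 : ∀ x ∈ Icc p q, ContinuousAt f (x + s * I))
    (h3 : ∀ y ∈ Icc r s, ContinuousAt f (q + y * I))
    (h4 : ∀ y ∈ Icc r s, ContinuousAt f (p + y * I)) :
    L (bd p q r s f) = bd p q r s (fun m => L (f m)) := by
  unfold bd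
  have i1 : ∀ t : ℝ, (∀ x ∈ Icc p q, ContinuousAt f (x + t * I)) →
      IntervalIntegrable (fun x : ℝ => f (x + t * I)) volume p q := by
    intro t ht
    apply ContinuousOn.intervalIntegrable
    rw [uIcc_of_le hpq]
    intro x hx
    apply ContinuousAt.continuousWithinAt
    exact ContinuousAt.comp (f := fun x : ℝ => (x : ℂ) + t * I) (g := f) (ht x hx) (by fun_prop)
  have i2 : ∀ t : ℝ, (∀ y ∈ Icc r s, ContinuousAt f (t + y * I)) →
      IntervalIntegrable (fun y : ℝ => f (t + y * I)) volume r s := by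
    intro t ht
    apply ContinuousOn.intervalIntegrable
    rw [uIcc_of_le hrs]
    intro x hx
    apply ContinuousAt.continuousWithinAt
    exact ContinuousAt.comp (f := fun y : ℝ => (t : ℂ) + y * I) (g := f) (ht x hx) (by fun_prop)
  rw [map_sub, map_add, map_sub, map_smul, map_smul, ← L.intervalIntegral_comp_comm (i1 r h1),
    ← L.intervalIntegral_comp_comm (i1 s h2), ← L.intervalIntegral_comp_comm (i2 q h3),
    ← L.intervalIntegral_comp_comm (i2 p h4)]

/-! ### the geometry -/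

/-- The compact set. -/
def KS (a u v c x1 x2 y1 y2 : ℝ) : Set ℂ :=
  (Icc 0 c ×ℂ {a}) ∪ (Icc 0 c ×ℂ {v}) ∪ ({c} ×ℂ Icc a v) ∪ ({0} ×ℂ Icc a u) ∪
    (Icc x1 x2 ×ℂ Icc y1 y2)

lemma KS_compact (a u v c x1 x2 y1 y2 : ℝ) : IsCompact (KS a u v c x1 x2 y1 y2) :=
  ((((isCompact_Icc.reProdIm isCompact_singleton).union
    (isCompact_Icc.reProdIm isCompact_singleton)).union
    (isCompact_singleton.reProdIm isCompact_Icc)).union
    (isCompact_singleton.reProdIm isCompact_Icc)).union (isCompact_Icc.reProdIm isCompact_Icc)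

/-- The set joining the boundary of the rectangle `[p,q] × [r,s]` to infinity. -/
def TS (p q r s w : ℝ) : Set ℂ :=
  ({p} ×ℂ Icc r w) ∪ (Iic p ×ℂ {w}) ∪ (Icc p q ×ℂ {r}) ∪ (Icc p q ×ℂ {s}) ∪ ({q} ×ℂ Icc r s)

lemma precon_prod {A B : Set ℝ} (hA : Convex ℝ A) (hB : Convex ℝ B) : IsPreconnected (A ×ℂ B) := by
  apply Convex.isPreconnected
  intro x hx y hy α β hα hβ hαβ
  rw [mem_reProdIm] at hx hy ⊢
  constructor
  · simpa using hA hx.1 hy.1 hα hβ hαβ
  · simpa using hB hx.2 hy.2 hα hβ hαβ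

lemma TS_precon (p q r s w : ℝ) (hpq : p ≤ q) (hrs : r ≤ s) (hsw : s ≤ w) :
    IsPreconnected (TS p q r s w) := by
  have h1 : IsPreconnected (({p} : Set ℝ) ×ℂ Icc r w) :=
    precon_prod (convex_singleton _) (convex_Icc _ _)
  have h2 : IsPreconnected ((Iic p : Set ℝ) ×ℂ {w}) :=
    precon_prod (convex_Iic _) (convex_singleton _)
  have h3 : ∀ t : ℝ, IsPreconnected ((Icc p q : Set ℝ) ×ℂ {t}) := fun t =>
    precon_prod (convex_Icc _ _) (convex_singleton _)
  have h4 : IsPreconnected (({q} : Set ℝ) ×ℂ Icc r s) :=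
    precon_prod (convex_singleton _) (convex_Icc _ _)
  unfold TS
  have hrw : r ≤ w := hrs.trans hsw
  refine IsPreconnected.union (⟨q, r⟩ : ℂ) ?_ ?_
    (IsPreconnected.union (⟨p, s⟩ : ℂ) ?_ ?_
    (IsPreconnected.union (⟨p, r⟩ : ℂ) ?_ ?_
    (IsPreconnected.union (⟨p, w⟩ : ℂ) ?_ ?_ h1 h2) (h3 r)) (h3 s)) h4
  all_goals simp [mem_reProdIm, hpq, hrs, hsw, hrw]

lemma TS_unbdd (p q r s w : ℝ) : ¬ Bornology.IsBounded (TS p q r s w) := by
  intro h
  obtain ⟨C, hC⟩ := h.exists_norm_le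
  have h1 : (⟨-(|C| + 1 + |p|), w⟩ : ℂ) ∈ TS p q r s w := by
    refine Or.inl (Or.inl (Or.inl (Or.inr ?_)))
    rw [mem_reProdIm]
    refine ⟨?_, rfl⟩
    have h1 := neg_abs_le p
    have h2 := abs_nonneg C
    simp only [mem_Iic]
    linarith
  have h2 := hC _ h1
  have h3 := (Complex.abs_re_le_norm (⟨-(|C| + 1 + |p|), w⟩ : ℂ)).trans h2
  simp only [abs_neg] at h3
  rw [abs_of_nonneg (by positivity)] at h3
  have h4 := le_abs_self C
  have h5 := abs_nonneg p
  linarith

lemma TS_sub (a u v c x1 x2 y1 y2 p q r s w : ℝ) (h1 : 0 < p) (h2 : p < x1) (hx : x1 < x2)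
    (h3 : x2 < q)
    (h4 : q < c) (h5 : a < r) (h6 : r < y1) (hy : y1 < y2) (h7 : y2 < s) (h8 : s < u) (h9 : u < w)
    (h10 : w < v) :
    TS p q r s w ⊆ (KS a u v c x1 x2 y1 y2)ᶜ := by
  intro z hz hk
  simp only [TS, KS, mem_union, mem_reProdIm, mem_Icc, mem_Iic, mem_singleton_iff] at hz hk
  rcases hz with (((⟨e1, e2, e3⟩ | ⟨e1, e2⟩) | ⟨⟨e1, e2⟩, e3⟩) | ⟨⟨e1, e2⟩, e3⟩) | ⟨e1, e2, e3⟩ <;>
  rcases hk with (((⟨⟨f1, f2⟩, f3⟩ | ⟨⟨f1, f2⟩, f3⟩) | ⟨f1, f2, f3⟩) | ⟨f1, f2, f3⟩) |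
    ⟨⟨f1, f2⟩, f3, f4⟩ <;> linarith

/-- **Piece R.** -/
theorem piece : Pool.Agent.W2helper26.TR.RungeStm := by
  intro a u v c x1 x2 y1 y2 δ hx0 hx hxc hay hy hyu huv hδ
  set p : ℝ := x1 / 2 with hp
  set q : ℝ := (x2 + c) / 2 with hq
  set r : ℝ := (a + y1) / 2 with hr
  set s : ℝ := (y2 + u) / 2 with hs
  set w : ℝ := (u + v) / 2 with hw
  set K : Set ℂ := KS a u v c x1 x2 y1 y2 with hK
  haveI : CompactSpace K := isCompact_iff_compactSpace.mp (KS_compact a u v c x1 x2 y1 y2)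
  have hpq : p ≤ q := by rw [hp, hq]; linarith
  have hrs : r ≤ s := by rw [hr, hs]; linarith
  have hsw : s ≤ w := by rw [hs, hw]; linarith
  have hT : IsPreconnected (TS p q r s w) := TS_precon p q r s w hpq hrs hsw
  have hsub : TS p q r s w ⊆ Kᶜ := by
    apply TS_sub a u v c x1 x2 y1 y2 p q r s w <;> linarith
  have hspec : ∀ μ ∈ TS p q r s w, μ ∉ spectrum ℂ (zA K) := fun μ hμ =>
    notMem_spec K hT hμ hsub (TS_unbdd p q r s w)
  have m1 : ∀ x ∈ Icc p q, ((x : ℂ) + r * I) ∈ TS p q r s w := by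
    intro x hx
    refine Or.inl (Or.inl (Or.inr ?_))
    rw [mem_reProdIm]; simpa using hx
  have m2 : ∀ x ∈ Icc p q, ((x : ℂ) + s * I) ∈ TS p q r s w := by
    intro x hx
    refine Or.inl (Or.inr ?_)
    rw [mem_reProdIm]; simpa using hx
  have m3 : ∀ y ∈ Icc r s, ((q : ℂ) + y * I) ∈ TS p q r s w := by
    intro y hy
    refine Or.inr ?_
    rw [mem_reProdIm]; simpa using hy
  have m4 : ∀ y ∈ Icc r s, ((p : ℂ) + y * I) ∈ TS p q r s w := by
    intro y hy
    refine Or.inl (Or.inl (Or.inl (Or.inl ?_)))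
    rw [mem_reProdIm]; simpa using ⟨hy.1, hy.2.trans hsw⟩
  set P : clA K := bd p q r s (rA K) with hP
  have hev : ∀ x : K, evA K x P = bd p q r s (fun m => 1 / (m - (x : ℂ))) := by
    intro x
    rw [hP, bd_comp p q r s hpq hrs (rA K) (evA K x)
      (fun y hy => rA_cont K (hspec _ (m1 y hy))) (fun y hy => rA_cont K (hspec _ (m2 y hy)))
      (fun y hy => rA_cont K (hspec _ (m3 y hy))) (fun y hy => rA_cont K (hspec _ (m4 y hy)))]
    exact bd_congr p q r s hpq hrs _ _
      (fun y hy => evA_rA K (hspec _ (m1 y hy)) x) (fun y hy => evA_rA K (hspec _ (m2 y hy)) x)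
      (fun y hy => evA_rA K (hspec _ (m3 y hy)) x) (fun y hy => evA_rA K (hspec _ (m4 y hy)) x)
  set F : clA K := (2 * Real.pi * I : ℂ)⁻¹ • P with hF
  have hpi : (2 * Real.pi * I : ℂ) ≠ 0 := by
    simp [Real.pi_ne_zero]
  have hF0 : ∀ x : K, ¬ (p ≤ (x : ℂ).re ∧ (x : ℂ).re ≤ q ∧ r ≤ (x : ℂ).im ∧ (x : ℂ).im ≤ s) →
      (F : C(K, ℂ)) x = 0 := by
    intro x hx
    have e1 : (F : C(K, ℂ)) x = evA K x F := rfl
    rw [e1, hF, map_smul, hev, bd_out p q r s hpq hrs _ hx, smul_zero]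
  have hF1 : ∀ x : K, p < (x : ℂ).re → (x : ℂ).re < q → r < (x : ℂ).im → (x : ℂ).im < s →
      (F : C(K, ℂ)) x = 1 := by
    intro x a1 a2 a3 a4
    have e1 : (F : C(K, ℂ)) x = evA K x F := rfl
    rw [e1, hF, map_smul, hev, bd_in p q r s _ a1 a2 a3 a4, smul_eq_mul, inv_mul_cancel₀ hpi]
  have hFc : (F : C(K, ℂ)) ∈ closure (entAlg K : Set C(K, ℂ)) := F.2
  obtain ⟨f, ⟨E, hE, hf⟩, hd⟩ := Metric.mem_closure_iff.mp hFc δ hδ
  have happ : ∀ x : K, ‖E x - (F : C(K, ℂ)) x‖ ≤ δ := by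
    intro x
    rw [← hf x, ← dist_eq_norm, dist_comm]
    exact (ContinuousMap.dist_apply_le_dist x).trans hd.le
  have happ0 : ∀ z : ℂ, z ∈ K → ¬ (p ≤ z.re ∧ z.re ≤ q ∧ r ≤ z.im ∧ z.im ≤ s) → ‖E z‖ ≤ δ := by
    intro z hz hn
    have := happ ⟨z, hz⟩
    rw [hF0 ⟨z, hz⟩ hn, sub_zero] at this
    exact this
  refine ⟨E, hE, ?_, ?_, ?_, ?_, ?_⟩
  · intro z z1 z2 z3
    refine happ0 z ?_ ?_
    · refine Or.inl (Or.inl (Or.inl (Or.inl ?_)))
      rw [mem_reProdIm]; exact ⟨⟨z1, z2⟩, z3⟩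
    · rintro ⟨_, _, b, _⟩; rw [hr] at b; linarith
  · intro z z1 z2 z3
    refine happ0 z ?_ ?_
    · refine Or.inl (Or.inl (Or.inl (Or.inr ?_)))
      rw [mem_reProdIm]; exact ⟨⟨z1, z2⟩, z3⟩
    · rintro ⟨_, _, _, b⟩; rw [hs] at b; linarith
  · intro z z1 z2 z3
    refine happ0 z ?_ ?_
    · refine Or.inl (Or.inl (Or.inr ?_))
      rw [mem_reProdIm]; exact ⟨z1, z2, z3⟩
    · rintro ⟨_, b, _, _⟩; rw [hq] at b; linarith
  · intro z z1 z2 z3
    refine happ0 z ?_ ?_
    · refine Or.inl (Or.inr ?_)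
      rw [mem_reProdIm]; exact ⟨z1, z2, z3⟩
    · rintro ⟨b, _, _, _⟩; rw [hp] at b; linarith
  · intro z z1 z2 z3 z4
    have hz : z ∈ K := by
      refine Or.inr ?_
      rw [mem_reProdIm]; exact ⟨⟨z1, z2⟩, z3, z4⟩
    have := happ ⟨z, hz⟩
    rw [hF1 ⟨z, hz⟩ (by show p < z.re; rw [hp]; linarith) (by show z.re < q; rw [hq]; linarith)
      (by show r < z.im; rw [hr]; linarith) (by show z.im < s; rw [hs]; linarith)] at this
    exact this

end Pool.Agent.W2helper17.TR
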